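import Pool.Agent.T6.H89.VDGap

set_option autoImplicit false

/-!
# min-Cost-VERTEX-DEL has no constant-factor approximation unless `P = NP`

Definitions: `Pool/Agent/H569R2/VDel/Defs.lean` (`Inst`, `graph`, `Stable`, `Feasible`, `cost`,
`TwoCosts`, `VDApprox`), `Pool/Agent/NPC/Defs.lean` (`PolyTime`, `InNP`, `bits`) and
`Pool/Agent/NPC/Classes.lean` (`InP`).

Proof. The PCP theorem gives a gap for vertex cover; iterated composition of hypergraphs amplifies
it to every constant gap for Hitting Set with hyperedges of constant size, i.e. for Set Cover; the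
reduction from Set Cover to vertex deletion with two costs preserves the gap up to the factor 2.
-/

namespace Pool.Agent.Results.MP_f82fc2_lc.HardUnlessPEqNP

open Pool.Agent.NPC Pool.Agent.H569R2.VDel

/-- (1) For every constant `c` and every language `L` in `NP` there is a polynomial-time computable
map from words `x` to pairs of an instance `f x` of min-Cost-VERTEX-DEL all whose vertex costs take
one of only two values, and a positive number `k x`, such that the optimum of `f x` is at most
`k x` if `x ∈ L`, and greater than `c * k x` if `x ∉ L`.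
(2) If, for some constant `α`, min-Cost-VERTEX-DEL (or only its restriction to the instances with
two cost values) has a polynomial-time `α`-approximation algorithm, then `P = NP`. -/
theorem result :
    (∀ (c : ℕ) (L : Set (List Bool)), InNP L →
      ∃ (f : List Bool → Inst) (k : List Bool → ℕ), PolyTime (fun x => bits (f x, k x)) ∧
        ∀ x, TwoCosts (f x) ∧ 0 < k x ∧
          (x ∈ L → ∃ S, Feasible (f x) S ∧ cost (f x) S ≤ k x) ∧
          (x ∉ L → ∀ S, Feasible (f x) S → c * k x < cost (f x) S)) ∧
    (∀ α : ℝ, (VDApprox TwoCosts α ∨ VDApprox (fun _ => True) α) →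
      ∀ L : Set (List Bool), InNP L → InP L) := by
  refine ⟨fun c L hL => ?_, fun α hα L hL => ?_⟩
  · obtain ⟨f, k, hfk, hx⟩ := Pool.Agent.T6.H89.VDGap.gapVD c hL
    exact ⟨f, k, polyTime_bits hfk, hx⟩
  · have key : VDApprox TwoCosts (max α 1) := by
      rcases hα with ⟨F, hF, hs⟩ | ⟨F, hF, hs⟩
      · refine ⟨F, hF, fun I hI => ?_⟩
        obtain ⟨S, h1, h2, h3⟩ := hs I hI
        exact ⟨S, h1, h2, fun S' hS' => (h3 S' hS').trans
          (mul_le_mul_of_nonneg_right (le_max_left _ _) (by positivity))⟩
      · refine ⟨F, hF, fun I _ => ?_⟩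
        obtain ⟨S, h1, h2, h3⟩ := hs I trivial
        exact ⟨S, h1, h2, fun S' hS' => (h3 S' hS').trans
          (mul_le_mul_of_nonneg_right (le_max_left _ _) (by positivity))⟩
    exact Pool.Agent.T6.H89.SCGap.inP_of_scApprox
      (scApprox_of_vdApprox (le_max_right _ _) 1 le_rfl key) hL

end Pool.Agent.Results.MP_f82fc2_lc.HardUnlessPEqNP
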